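import Mathlib

/-!
# Propositional ontology embeds in S4.2

The translation with `χ(p, q) = p ∧ ((q ∧ □(p ↔ q)) ∨ (¬q ∧ ◇(p ∧ q)))` is sound and faithful for
all logics between `K` and `S5`, in particular for `S4.2`.

Soundness: `χ(a, a)` says `a`; if `χ(a, b)` and `χ(b, c)` hold then `a`, `b` and `□(a ↔ b)` hold, so
`a` and `b` can be exchanged. Faithfulness: if `φ` is no theorem of `L₁` there is, by compactness,
a valuation `v` of the atoms which satisfies all axioms but not `φ`. Take the cluster with the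
points `none` and `some c` for all names `c`; let `p_a` be true at `none` iff `v (ε a a)`, and true
at `some c` iff `v (ε c a)`. Then `χ(p_a, p_b)` is true at `none` iff `v (ε a b)`.
-/

set_option autoImplicit false

namespace Pool.Agent.Results.MP_c90ce4_lc.EmbedsInS42

/-! ### The logic `L₁` -/

/-- Formulas of propositional ontology; `eps a b` is `ε a b`, the name variables are numbers. -/
inductive OFm : Type
  | eps (a b : ℕ) : OFm
  | neg (φ : OFm) : OFm
  | or (φ ψ : OFm) : OFm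

namespace OFm

/-- implication -/
def imp (φ ψ : OFm) : OFm := or (neg φ) ψ

/-- conjunction -/
def and (φ ψ : OFm) : OFm := neg (or (neg φ) (neg ψ))

/-- Truth under a valuation of the atoms. -/
def eval (v : ℕ → ℕ → Prop) : OFm → Prop
  | eps a b => v a b
  | neg φ => ¬ eval v φ
  | or φ ψ => eval v φ ∨ eval v ψ

end OFm

open OFm in
/-- The theorems of `L₁`. -/
inductive L1 : OFm → Prop
  | taut (φ : OFm) : (∀ v, φ.eval v) → L1 φ
  | ax1 (a b : ℕ) : L1 (imp (eps a b) (eps a a))
  | ax2 (a b c : ℕ) : L1 (imp (and (eps a b) (eps b c)) (eps a c))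
  | ax3 (a b c : ℕ) : L1 (imp (and (eps a b) (eps b c)) (eps b a))
  | mp (φ ψ : OFm) : L1 φ → L1 (imp φ ψ) → L1 ψ

/-! ### Modal logic -/

/-- Modal formulas. -/
inductive MFm : Type
  | var (n : ℕ) : MFm
  | neg (φ : MFm) : MFm
  | or (φ ψ : MFm) : MFm
  | box (φ : MFm) : MFm

namespace MFm

/-- implication -/
def imp (φ ψ : MFm) : MFm := or (neg φ) ψ

/-- conjunction -/
def and (φ ψ : MFm) : MFm := neg (or (neg φ) (neg ψ))

/-- equivalence -/
def iff (φ ψ : MFm) : MFm := and (imp φ ψ) (imp ψ φ)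

/-- possibility -/
def dia (φ : MFm) : MFm := neg (box (neg φ))

/-- Uniform substitution. -/
def subst (s : ℕ → MFm) : MFm → MFm
  | var n => s n
  | neg φ => neg (subst s φ)
  | or φ ψ => or (subst s φ) (subst s ψ)
  | box φ => box (subst s φ)

/-- The variables of a formula. -/
def vars : MFm → Set ℕ
  | var n => {n}
  | neg φ => vars φ
  | or φ ψ => vars φ ∪ vars ψ
  | box φ => vars φ

/-- `φ` is an instance of a classical tautology: it is true under all assignments of truth values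
to modal formulas which respect negation and disjunction. -/
def Taut (φ : MFm) : Prop :=
  ∀ v : MFm → Prop, (∀ ψ, v (neg ψ) ↔ ¬ v ψ) → (∀ ψ χ, v (or ψ χ) ↔ (v ψ ∨ v χ)) → v φ

end MFm

open MFm

/-- Normal modal logics. -/
structure Normal (L : Set MFm) : Prop where
  taut : ∀ φ, Taut φ → φ ∈ L
  K : ∀ φ ψ, imp (box (imp φ ψ)) (imp (box φ) (box ψ)) ∈ L
  mp : ∀ φ ψ, φ ∈ L → imp φ ψ ∈ L → ψ ∈ L
  nec : ∀ φ, φ ∈ L → box φ ∈ L
  subst : ∀ φ s, φ ∈ L → φ.subst s ∈ L

/-- The smallest normal modal logic containing the formulas in `X`. -/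
def logicOf (X : Set MFm) : Set MFm := {φ | ∀ L : Set MFm, Normal L → X ⊆ L → φ ∈ L}

/-- `K` -/
def logicK : Set MFm := logicOf ∅

/-- `S4.2`, axiomatized by `□p ⊃ p`, `□p ⊃ □□p` and `◇□p ⊃ □◇p` -/
def logicS42 : Set MFm := logicOf
  {imp (box (var 0)) (var 0), imp (box (var 0)) (box (box (var 0))),
    imp (dia (box (var 0))) (box (dia (var 0)))}

/-- `S5`, axiomatized by `□p ⊃ p`, `□p ⊃ □□p` and `◇p ⊃ □◇p` -/
def logicS5 : Set MFm := logicOf
  {imp (box (var 0)) (var 0), imp (box (var 0)) (box (box (var 0))),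
    imp (dia (var 0)) (box (dia (var 0)))}

/-- The translation `T_χ`, where `χ = χ(p, q)` is given by a formula in the variables `p = var 0` and
`q = var 1`, and the variable `p_a` assigned to the name `a` is `var a`: the atom `ε a b` is
translated as `χ(p_a, p_b)`. -/
def T (χ : MFm) : OFm → MFm
  | .eps a b => χ.subst (fun i => if i = 0 then var a else var b)
  | .neg φ => .neg (T χ φ)
  | .or φ ψ => .or (T χ φ) (T χ ψ)

/-- The formula `χ(p, q) = p ∧ ((q ∧ □(p ↔ q)) ∨ (¬q ∧ ◇(p ∧ q)))`. -/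
def chi : MFm :=
  MFm.and (var 0) (MFm.or (MFm.and (var 1) (box (MFm.iff (var 0) (var 1))))
    (MFm.and (neg (var 1)) (dia (MFm.and (var 0) (var 1)))))

/-- `χ(p_a, p_b)` -/
lemma T_eps (a b : ℕ) : T chi (.eps a b) =
    MFm.and (var a) (MFm.or (MFm.and (var b) (box (MFm.iff (var a) (var b))))
      (MFm.and (neg (var b)) (dia (MFm.and (var a) (var b))))) := rfl

lemma T_imp (χ : MFm) (φ ψ : OFm) : T χ (.imp φ ψ) = imp (T χ φ) (T χ ψ) := rfl

lemma T_and (χ : MFm) (φ ψ : OFm) : T χ (.and φ ψ) = MFm.and (T χ φ) (T χ ψ) := rfl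

/-! ### Soundness -/

section
variable {L : Set MFm} (hL : Normal L)
include hL

lemma box_mono {φ ψ : MFm} (h : Taut (imp φ ψ)) : imp (box φ) (box ψ) ∈ L :=
  hL.mp _ _ (hL.nec _ (hL.taut _ h)) (hL.K _ _)

lemma box_mono₂ {φ ψ θ : MFm} (h : Taut (imp φ (imp ψ θ))) :
    imp (box φ) (imp (box ψ) (box θ)) ∈ L := by
  have h1 := box_mono hL h
  have h2 := hL.K ψ θ
  refine hL.mp _ _ h2 (hL.mp _ _ h1 (hL.taut _ ?_))
  intro v hn ho
  simp only [imp, ho, hn]
  tauto

lemma sound {φ : OFm} (h : L1 φ) : T chi φ ∈ L := by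
  induction h with
  | taut φ h =>
    apply hL.taut
    intro v hn ho
    have : ∀ ψ : OFm, v (T chi ψ) ↔ ψ.eval (fun a b => v (T chi (.eps a b))) := by
      intro ψ
      induction ψ with
      | eps a b => rfl
      | neg ψ ih => rw [show T chi (.neg ψ) = neg (T chi ψ) from rfl, hn, ih]; rfl
      | or ψ θ ih1 ih2 =>
        rw [show T chi (.or ψ θ) = MFm.or (T chi ψ) (T chi θ) from rfl, ho, ih1, ih2]; rfl
    exact (this φ).2 (h _)
  | mp φ ψ _ _ ih1 ih2 => exact hL.mp _ _ ih1 ih2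
  | ax1 a b =>
    have h1 : box (MFm.iff (var a) (var a)) ∈ L := hL.nec _ (hL.taut _ (by
      intro v hn ho
      simp only [MFm.iff, MFm.and, imp, ho, hn]
      tauto))
    refine hL.mp _ _ h1 (hL.taut _ ?_)
    intro v hn ho
    rw [T_imp, T_eps, T_eps]
    simp only [imp, MFm.and, ho, hn]
    tauto
  | ax2 a b c =>
    have h1 : imp (box (MFm.iff (var a) (var b))) (imp (box (MFm.iff (var b) (var c)))
        (box (MFm.iff (var a) (var c)))) ∈ L := box_mono₂ hL (by
      intro v hn ho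
      simp only [MFm.iff, MFm.and, imp, ho, hn]
      tauto)
    have h2 : imp (box (MFm.iff (var a) (var b))) (imp (box (neg (MFm.and (var a) (var c))))
        (box (neg (MFm.and (var b) (var c))))) ∈ L := box_mono₂ hL (by
      intro v hn ho
      simp only [MFm.iff, MFm.and, imp, ho, hn]
      tauto)
    refine hL.mp _ _ h1 (hL.mp _ _ h2 (hL.taut _ ?_))
    intro v hn ho
    rw [T_imp, T_and, T_eps, T_eps, T_eps]
    simp only [dia, imp, MFm.and, ho, hn]
    tauto
  | ax3 a b c =>
    have h1 : imp (box (MFm.iff (var a) (var b))) (box (MFm.iff (var b) (var a))) ∈ L :=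
      box_mono hL (by
        intro v hn ho
        simp only [MFm.iff, MFm.and, imp, ho, hn]
        tauto)
    refine hL.mp _ _ h1 (hL.taut _ ?_)
    intro v hn ho
    rw [T_imp, T_and, T_eps, T_eps, T_eps]
    simp only [dia, imp, MFm.and, ho, hn]
    tauto

end

/-! ### Completeness of `L₁` for valuations of atoms -/

/-- A valuation satisfies all axioms. -/
def Good (v : ℕ → ℕ → Prop) : Prop :=
  (∀ a b, v a b → v a a) ∧ (∀ a b c, v a b → v b c → v a c) ∧ ∀ a b c, v a b → v b c → v b a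

/-- The axioms. -/
inductive Ax : OFm → Prop
  | ax1 (a b : ℕ) : Ax (.imp (.eps a b) (.eps a a))
  | ax2 (a b c : ℕ) : Ax (.imp (.and (.eps a b) (.eps b c)) (.eps a c))
  | ax3 (a b c : ℕ) : Ax (.imp (.and (.eps a b) (.eps b c)) (.eps b a))

lemma Ax.l1 {φ : OFm} (h : Ax φ) : L1 φ := by
  cases h with
  | ax1 a b => exact .ax1 a b
  | ax2 a b c => exact .ax2 a b c
  | ax3 a b c => exact .ax3 a b c

lemma good_of {v : ℕ → ℕ → Prop} (h : ∀ φ, Ax φ → φ.eval v) : Good v := by
  refine ⟨fun a b hab => ?_, fun a b c hab hbc => ?_, fun a b c hab hbc => ?_⟩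
  · have := h _ (.ax1 a b)
    simp only [OFm.imp, OFm.eval] at this
    tauto
  · have := h _ (.ax2 a b c)
    simp only [OFm.imp, OFm.and, OFm.eval] at this
    tauto
  · have := h _ (.ax3 a b c)
    simp only [OFm.imp, OFm.and, OFm.eval] at this
    tauto

lemma isClopen_eval (φ : OFm) :
    IsClopen {w : ℕ × ℕ → Bool | φ.eval (fun a b => w (a, b) = true)} := by
  induction φ with
  | eps a b =>
    have hc : Continuous (fun w : ℕ × ℕ → Bool => w (a, b)) := continuous_apply _
    exact (isClopen_discrete ({true} : Set Bool)).preimage hc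
  | neg φ ih => exact ih.compl
  | or φ ψ ih1 ih2 => exact ih1.union ih2

lemma l1_of_list (l : List OFm) (hl : ∀ ψ ∈ l, L1 ψ) (φ : OFm)
    (h : ∀ v, (∀ ψ ∈ l, ψ.eval v) → φ.eval v) : L1 φ := by
  induction l generalizing φ with
  | nil => exact .taut φ (fun v => h v (by simp))
  | cons ψ l ih =>
    have h1 : L1 (.imp ψ φ) := by
      apply ih (fun θ hθ => hl θ (List.mem_cons_of_mem _ hθ))
      intro v hv
      by_cases hψ : ψ.eval v
      · exact Or.inr (h v (by
          intro θ hθ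
          rcases List.mem_cons.1 hθ with rfl | hθ
          · exact hψ
          · exact hv θ hθ))
      · exact Or.inl hψ
    exact .mp ψ φ (hl ψ List.mem_cons_self) h1

lemma complete {φ : OFm} (h : ¬ L1 φ) : ∃ v, Good v ∧ ¬ φ.eval v := by
  classical
  by_contra hcon
  push Not at hcon
  apply h
  let Z : {ψ : OFm // Ax ψ} → Set (ℕ × ℕ → Bool) :=
    fun ψ => {w | ψ.1.eval (fun a b => w (a, b) = true)}
  have hcomp : IsCompact {w : ℕ × ℕ → Bool | ¬ φ.eval (fun a b => w (a, b) = true)} :=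
    (isClopen_eval φ).compl.isClosed.isCompact
  have hemp : {w : ℕ × ℕ → Bool | ¬ φ.eval (fun a b => w (a, b) = true)} ∩ ⋂ i, Z i = ∅ := by
    ext w
    simp only [Set.mem_inter_iff, Set.mem_iInter, Set.mem_empty_iff_false, iff_false, not_and]
    intro hw hZ
    exact hw (hcon _ (good_of fun ψ hψ => hZ ⟨ψ, hψ⟩))
  obtain ⟨t, ht⟩ := hcomp.elim_finite_subfamily_closed Z
    (fun i => (isClopen_eval i.1).isClosed) hemp
  apply l1_of_list (t.toList.map Subtype.val)
  · intro ψ hψ
    obtain ⟨⟨θ, hθ⟩, -, rfl⟩ := List.mem_map.1 hψ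
    exact hθ.l1
  · intro v hv
    by_contra hφ
    have hv' : (fun a b => (fun p : ℕ × ℕ => decide (v p.1 p.2)) (a, b) = true) = v := by
      funext a b
      simp
    have : (fun p : ℕ × ℕ => decide (v p.1 p.2)) ∈
        {w : ℕ × ℕ → Bool | ¬ φ.eval (fun a b => w (a, b) = true)} ∩ ⋂ i ∈ t, Z i := by
      refine ⟨?_, ?_⟩
      · simp only [Set.mem_ofPred_eq, hv']
        exact hφ
      · simp only [Set.mem_iInter]
        intro i hi
        simp only [Z, Set.mem_ofPred_eq, hv']
        exact hv _ (List.mem_map.2 ⟨i, by simpa using hi, rfl⟩)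
    rw [ht] at this
    exact this

/-! ### Faithfulness -/

/-- Truth of modal formulas in a cluster (a frame with universal relation). -/
def sat {W : Type} (V : ℕ → W → Prop) : W → MFm → Prop
  | w, .var n => V n w
  | w, .neg φ => ¬ sat V w φ
  | w, .or φ ψ => sat V w φ ∨ sat V w ψ
  | _, .box φ => ∀ u, sat V u φ

lemma sat_subst {W : Type} (V : ℕ → W → Prop) (s : ℕ → MFm) (φ : MFm) (w : W) :
    sat V w (φ.subst s) ↔ sat (fun n u => sat V u (s n)) w φ := by
  induction φ generalizing w with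
  | var n => rfl
  | neg φ ih => simp only [subst, sat, ih]
  | or φ ψ ih1 ih2 => simp only [subst, sat, ih1, ih2]
  | box φ ih => simp only [subst, sat, ih]

lemma sat_imp {W : Type} (V : ℕ → W → Prop) (w : W) (φ ψ : MFm) :
    sat V w (imp φ ψ) ↔ (sat V w φ → sat V w ψ) := by
  simp only [imp, sat]
  tauto

lemma sat_and {W : Type} (V : ℕ → W → Prop) (w : W) (φ ψ : MFm) :
    sat V w (MFm.and φ ψ) ↔ (sat V w φ ∧ sat V w ψ) := by
  simp only [MFm.and, sat]
  tauto

lemma sat_iff {W : Type} (V : ℕ → W → Prop) (w : W) (φ ψ : MFm) :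
    sat V w (MFm.iff φ ψ) ↔ (sat V w φ ↔ sat V w ψ) := by
  simp only [MFm.iff, sat_and, sat_imp]
  tauto

lemma sat_dia {W : Type} (V : ℕ → W → Prop) (w : W) (φ : MFm) :
    sat V w (dia φ) ↔ ∃ u, sat V u φ := by
  simp only [dia, sat]
  push Not
  rfl

/-- The formulas valid in the cluster `W`. -/
def clusterLogic (W : Type) : Set MFm := {φ | ∀ (V : ℕ → W → Prop) (w : W), sat V w φ}

lemma normal_cluster (W : Type) : Normal (clusterLogic W) where
  taut φ h V w := h (fun ψ => sat V w ψ) (fun _ => Iff.rfl) (fun _ _ => Iff.rfl)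
  K φ ψ V w := by
    simp only [imp, sat]
    by_cases h : ∀ u, ¬ sat V u φ ∨ sat V u ψ
    · by_cases h' : ∀ u, sat V u φ
      · exact Or.inr (Or.inr fun u => (h u).resolve_left (not_not.2 (h' u)))
      · exact Or.inr (Or.inl h')
    · exact Or.inl h
  mp φ ψ h1 h2 V w := (h2 V w).resolve_left (not_not.2 (h1 V w))
  nec φ h V _ := fun u => h V u
  subst φ s h V w := (sat_subst V s φ w).2 (h _ w)

lemma S5_sub_cluster (W : Type) : logicS5 ⊆ clusterLogic W := by
  intro φ h
  apply h _ (normal_cluster W)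
  rintro ψ (rfl | rfl | rfl) V w
  · simp only [imp, sat]
    by_cases h : ∀ u, V 0 u
    · exact Or.inr (h w)
    · exact Or.inl h
  · simp only [imp, sat]
    by_cases h : ∀ u, V 0 u
    · exact Or.inr fun _ => h
    · exact Or.inl h
  · simp only [imp, dia, sat]
    by_cases h : ∀ u, ¬ V 0 u
    · exact Or.inl (not_not.2 h)
    · exact Or.inr fun _ => h

lemma S42_sub_cluster (W : Type) : logicS42 ⊆ clusterLogic W := by
  intro φ h
  apply h _ (normal_cluster W)
  rintro ψ (rfl | rfl | rfl) V w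
  · simp only [imp, sat]
    by_cases h : ∀ u, V 0 u
    · exact Or.inr (h w)
    · exact Or.inl h
  · simp only [imp, sat]
    by_cases h : ∀ u, V 0 u
    · exact Or.inr fun _ => h
    · exact Or.inl h
  · simp only [imp, dia, sat]
    by_cases h : ∀ u, V 0 u
    · exact Or.inr fun _ h' => h' w (h w)
    · exact Or.inl (not_not.2 fun _ => h)

/-- The valuation on the cluster. -/
def val (v : ℕ → ℕ → Prop) (a : ℕ) : Option ℕ → Prop
  | none => v a a
  | some c => v c a

lemma sat_eps {v : ℕ → ℕ → Prop} (hv : Good v) (a b : ℕ) :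
    sat (val v) none (T chi (.eps a b)) ↔ v a b := by
  obtain ⟨h1, h2, h3⟩ := hv
  rw [T_eps]
  simp only [sat_and, sat_iff, sat_dia, sat]
  constructor
  · rintro ⟨ha, ⟨hb, h⟩ | ⟨hb, u, hu1, hu2⟩⟩
    · exact (h (some a)).1 ha
    · cases u with
      | none => exact absurd hu2 hb
      | some c => exact h2 a c b (h3 c a a hu1 ha) hu2
  · intro hab
    have ha : v a a := h1 a b hab
    refine ⟨ha, ?_⟩
    by_cases hb : v b b
    · have hba : v b a := h3 a b b hab hb
      refine Or.inl ⟨hb, fun u => ?_⟩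
      cases u with
      | none => exact ⟨fun _ => hb, fun _ => ha⟩
      | some c => exact ⟨fun hc => h2 c a b hc hab, fun hc => h2 c b a hc hba⟩
    · exact Or.inr ⟨hb, some a, ha, hab⟩

lemma sat_T {v : ℕ → ℕ → Prop} (hv : Good v) (φ : OFm) :
    sat (val v) none (T chi φ) ↔ φ.eval v := by
  induction φ with
  | eps a b => exact sat_eps hv a b
  | neg φ ih => simp only [T, sat, OFm.eval, ih]
  | or φ ψ ih1 ih2 => simp only [T, sat, OFm.eval, ih1, ih2]

lemma faithful {L : Set MFm} (hL : L ⊆ clusterLogic (Option ℕ)) {φ : OFm} (h : T chi φ ∈ L) :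
    L1 φ := by
  by_contra hn
  obtain ⟨v, hv, hφ⟩ := complete hn
  exact hφ ((sat_T hv φ).1 (hL h (val v) none))

/-- **Propositional ontology `L₁` embeds in `S4.2`**: for the modal formula
`χ(p, q) = p ∧ ((q ∧ □(p ↔ q)) ∨ (¬q ∧ ◇(p ∧ q)))` and all formulas `φ` of `L₁`, `φ` is a theorem of
`L₁` if and only if `T_χ(φ)` is a theorem of `S4.2`. Moreover, the same `χ` works for all sets of
formulas between `K` and `S5`. -/
theorem result : chi.vars ⊆ {0, 1} ∧
    (∀ φ : OFm, L1 φ ↔ T chi φ ∈ logicS42) ∧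
    ∀ Λ : Set MFm, logicK ⊆ Λ → Λ ⊆ logicS5 → ∀ φ : OFm, L1 φ ↔ T chi φ ∈ Λ := by
  refine ⟨?_, fun φ => ⟨fun h L hL _ => sound hL h, faithful (S42_sub_cluster _)⟩,
    fun Λ h1 h2 φ => ⟨fun h => h1 fun L hL _ => sound hL h,
      faithful (h2.trans (S5_sub_cluster _))⟩⟩
  simp only [chi, MFm.and, MFm.iff, imp, dia, vars]
  intro n hn
  simp only [Set.mem_union, Set.mem_singleton_iff, Set.mem_insert_iff] at *
  tauto

end Pool.Agent.Results.MP_c90ce4_lc.EmbedsInS42
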